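import Mathlib
import Pool.Agent.Helper383.Cov.Main

set_option autoImplicit false

namespace Pool.Agent.Results.MP_455133_co.GraphCase

open Finset

/-- `A` is a family of `s`-subsets of an `n`-element set which is `t`-covering: every `t`-subset
contains a member of `A`. -/
def IsCovering {n : ℕ} (s t : ℕ) (A : Finset (Finset (Fin n))) : Prop :=
  (∀ S ∈ A, S.card = s) ∧ ∀ T : Finset (Fin n), T.card = t → ∃ S ∈ A, S ⊆ T

/-- The lower `r`-shadow of `A`: the `r`-sets contained in a member of `A`. -/
def lowerShadow {n : ℕ} (r : ℕ) (A : Finset (Finset (Fin n))) : Finset (Finset (Fin n)) :=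
  (powersetCard r univ).filter (fun B => ∃ S ∈ A, B ⊆ S)

/-- The sizes of the lower `r`-shadows of the `t`-covering families of `s`-subsets of an
`n`-element set. -/
def shadowSizes (n r s t : ℕ) : Set ℕ :=
  {m | ∃ A : Finset (Finset (Fin n)), IsCovering s t A ∧ (lowerShadow r A).card = m}

/-- `f(n,r,s,t)`, the least size of the lower `r`-shadow of a `t`-covering family of `s`-sets. -/
noncomputable def f (n r s t : ℕ) : ℕ := sInf (shadowSizes n r s t)

/-- The case `r = 2` for all large `n`, and exact values and bounds for all `r`. -/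
theorem result :
    -- the case `r = 2`: all `2 < s < t` and all large `n`
    (∀ s t : ℕ, 2 < s → s < t → ∃ N : ℕ, ∀ n ≥ N,
      f n 2 s t = ∑ i ∈ range (n - (t - 1) % (s - 1)), i / ((t - 1) / (s - 1))) ∧
    -- the case `r = 2`, `t ≤ 2 s - 2`: all `n`
    (∀ n s t : ℕ, 2 < s → s < t → t < n → t ≤ 2 * s - 2 → f n 2 s t = (n - t + s).choose 2) ∧
    -- all `r`, when `t` is large in terms of `r` and `t - s`: all `n`
    (∀ n r s t : ℕ, 0 < r → r < s → s < t → t < n → r * (r + (t - s)).choose r ≤ t →
      f n r s t = (n - t + s).choose r) ∧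
    -- bounds for all parameters
    (∀ n r s t : ℕ, 0 < r → r < s → s < t → t < n →
      IsLeast (shadowSizes n r s t) (f n r s t) ∧
      f n r s t ≤ ∑ i ∈ range (n - (t - 1) % (s - 1)), (i / ((t - 1) / (s - 1))).choose (r - 1) ∧
      f n r s t ≤ (n - t + s).choose r ∧
      n.choose r * s.choose r ≤ f n r s t * t.choose r) :=
  ⟨fun _ _ hs hst => Helper383.Cov.exact_two_large hs hst,
    fun _ _ _ hs hst htn h => Helper383.Cov.exact_two_small hs hst htn.le h,
    fun _ _ _ _ _ _ hst htn h => Helper383.Cov.exact_general hst htn.le h,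
    fun _ _ _ _ hr hrs hst htn => ⟨Helper383.Cov.isLeast hst.le, Helper383.Cov.upper hr hrs hst,
      Helper383.Cov.upper_small hst htn.le, Helper383.Cov.average hrs hst htn.le⟩⟩

end Pool.Agent.Results.MP_455133_co.GraphCase
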